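import Pool.Agent.helper51.RMX.Spec

/-!
# Project rmx, row DEX (adapted from helper70/RB/DET.lean)
-/

set_option autoImplicit false

namespace Pool.Agent.RMX

open Pool.Agent.RB NumberField IsDedekindDomain Module
open scoped nonZeroDivisors Real Classical IsMulCommutative

lemma DEX_zc_mem {G : Type} [Group G] (X : Finset (G →* ℂˣ)) (v : MonoidAlgebra ℤ G)
    (hv : v ∈ ElX X) : zc v ∈ ECX X := by
  intro ψ hψ
  rw [DET_evC]
  exact hv ψ hψ

lemma DEX_mul_mem {G : Type} [CommGroup G] (X : Finset (G →* ℂˣ)) (a y : MonoidAlgebra ℂ G)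
    (hy : y ∈ ECX X) : a * y ∈ ECX X := by
  intro ψ hψ
  rw [map_mul, hy ψ hψ, mul_zero]

/-- multiplication by a matrix -/
noncomputable def DEX_Phi {G : Type} [CommGroup G] (X : Finset (G →* ℂˣ)) {r : ℕ}
    (A : Matrix (Fin r) (Fin r) (MonoidAlgebra ℂ G)) :
    (Fin r → ECX X) →ₗ[ℂ] (Fin r → ECX X) :=
  LinearMap.pi fun i => ∑ j, ((LinearMap.mulLeft ℂ (A i j)).restrict
    (p := ECX X) (q := ECX X) (fun y hy => DEX_mul_mem X (A i j) y hy)).comp (LinearMap.proj j)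

lemma DEX_Phi_apply {G : Type} [CommGroup G] (X : Finset (G →* ℂˣ)) {r : ℕ}
    (A : Matrix (Fin r) (Fin r) (MonoidAlgebra ℂ G)) (y : Fin r → ECX X) (i : Fin r) :
    ((DEX_Phi X A y i : ECX X) : MonoidAlgebra ℂ G) =
      ∑ j, A i j * ((y j : ECX X) : MonoidAlgebra ℂ G) := by
  simp only [DEX_Phi, LinearMap.pi_apply, LinearMap.coe_sum, Finset.sum_apply,
    LinearMap.comp_apply, LinearMap.proj_apply, Submodule.coe_sum]
  rfl

/-- coordinates in the group ring -/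
noncomputable def DEX_kap {G : Type} [CommGroup G] (X : Finset (G →* ℂˣ)) (r : ℕ) :
    (Fin r → ECX X) →+ (Fin r → MonoidAlgebra ℂ G) where
  toFun y j := y j
  map_zero' := rfl
  map_add' _ _ := rfl

lemma DEX_eps_mul {G : Type} [CommGroup G] [Finite G] (X : Finset (G →* ℂˣ))
    (ε : MonoidAlgebra ℤ G) (N : ℤ) (h1 : ∀ ψ ∈ X, evZ ψ ε = (N : ℂ))
    (h2 : ∀ ψ, ψ ∉ X → evZ ψ ε = 0) (y : MonoidAlgebra ℤ G) (hy : y ∈ ElX X) :
    ε * y = N • y := by
  have h3 : ε * y - N • y = 0 := by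
    apply DET_zc_inj
    rw [map_zero]
    refine MDT_inj _ fun ψ => ?_
    rw [DET_evC, map_sub, map_mul, map_zsmul, zsmul_eq_mul]
    by_cases hψ : ψ ∈ X
    · rw [h1 ψ hψ, sub_self]
    · rw [h2 ψ hψ, hy ψ hψ, mul_zero, mul_zero, sub_self]
  exact sub_eq_zero.1 h3

lemma DEX_B (hMDX : MDX_stmt) (hEBX : EBX_stmt) (G : Type) [CommGroup G] [Finite G]
    (X : Finset (G →* ℂˣ)) (ε : MonoidAlgebra ℤ G) (N₀ : ℤ) (hN₀ : N₀ ≠ 0)
    (hε1 : ∀ ψ ∈ X, evZ ψ ε = (N₀ : ℂ)) (hε2 : ∀ ψ, ψ ∉ X → evZ ψ ε = 0) (r : ℕ)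
    (L : AddSubgroup (Fin r → MonoidAlgebra ℤ G))
    (hL : L ≤ AddSubgroup.pi Set.univ (fun _ : Fin r => ElX X))
    (hI : L.relIndex (AddSubgroup.pi Set.univ (fun _ : Fin r => ElX X)) ≠ 0)
    (a : Matrix (Fin r) (Fin r) (MonoidAlgebra ℤ G)) (N : ℤ) (hN : N ≠ 0)
    (h : ∀ y ∈ L, ∀ i, ∃ v ∈ ElX X, N • v = ∑ j, a i j * y j) :
    ∃ z : ℤ, (L.relIndex (AddSubgroup.pi Set.univ (fun _ : Fin r => ElX X)) : ℂ) *
      ∏ ψ ∈ X, Matrix.det (fun i j => evZ ψ (a i j)) = (z : ℂ) * ∏ _ψ ∈ X, (N : ℂ) ^ r := by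
  obtain ⟨ι, hι, b, hb⟩ := hEBX G X ε N₀ hN₀ hε1 hε2
  have hNC : (N : ℂ) ≠ 0 := Int.cast_ne_zero.2 hN
  set b' := Pi.basis (fun _ : Fin r => b) with hb'
  set Λ := AddSubgroup.closure (Set.range b') with hΛ
  set E := AddSubgroup.pi Set.univ (fun _ : Fin r => ElX X) with hE
  have hΛmem : ∀ y : Fin r → ECX X, y ∈ Λ ↔
      ∀ j, ∃ x ∈ ElX X, zc x = ((y j : ECX X) : MonoidAlgebra ℂ G) := by
    intro y
    rw [hΛ, hb', DET_closure_pi]
    exact forall_congr' fun j => hb (y j)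
  have hEmem : ∀ v, v ∈ E ↔ ∀ j, v j ∈ ElX X := by
    intro v
    rw [hE, AddSubgroup.mem_pi]
    exact ⟨fun h j => h j (Set.mem_univ j), fun h j _ => h j⟩
  -- the image of `Λ`
  have hmap : Λ.map (DEX_kap X r) = E.map (DET_zet G r) := by
    ext w
    rw [AddSubgroup.mem_map, AddSubgroup.mem_map]
    constructor
    · rintro ⟨y, hy, rfl⟩
      have h1 := (hΛmem y).1 hy
      choose v hv hvy using h1
      exact ⟨v, (hEmem v).2 hv, funext fun j => hvy j⟩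
    · rintro ⟨v, hv, rfl⟩
      have hv' := (hEmem v).1 hv
      refine ⟨fun j => ⟨zc (v j), DEX_zc_mem X (v j) (hv' j)⟩, ?_, rfl⟩
      exact (hΛmem _).2 fun j => ⟨v j, hv' j, rfl⟩
  have hζinj : Function.Injective (DET_zet G r) := by
    intro x y hxy
    funext j
    exact DET_zc_inj (congrFun hxy j)
  set M' := (L.map (DET_zet G r)).comap (DEX_kap X r) with hM'
  have hidx : M'.relIndex Λ = L.relIndex E := by
    rw [hM', AddSubgroup.relIndex_comap, hmap, AddSubgroup.relIndex_map_map_of_injective _ _ hζinj]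
  have hM'mem : ∀ y ∈ M', ∃ v ∈ L, ∀ j, zc (v j) = ((y j : ECX X) : MonoidAlgebra ℂ G) := by
    intro y hy
    rw [hM', AddSubgroup.mem_comap, AddSubgroup.mem_map] at hy
    obtain ⟨v, hv, hvy⟩ := hy
    exact ⟨v, hv, fun j => congrFun hvy j⟩
  have hle : M' ≤ Λ := by
    intro y hy
    obtain ⟨v, hv, hvy⟩ := hM'mem y hy
    exact (hΛmem y).2 fun j => ⟨v j, (hEmem v).1 (hL hv) j, hvy j⟩
  -- the matrix
  set A : Matrix (Fin r) (Fin r) (MonoidAlgebra ℂ G) := fun i j => (N : ℂ)⁻¹ • zc (a i j) with hA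
  have hΦ : ∀ y ∈ M', DEX_Phi X A y ∈ Λ := by
    intro y hy
    obtain ⟨v, hv, hvy⟩ := hM'mem y hy
    refine (hΛmem _).2 fun i => ?_
    obtain ⟨w, hw, hwv⟩ := h v hv i
    refine ⟨w, hw, ?_⟩
    rw [DEX_Phi_apply]
    have h1 : ∑ j, A i j * ((y j : ECX X) : MonoidAlgebra ℂ G) =
        (N : ℂ)⁻¹ • zc (∑ j, a i j * v j) := by
      rw [map_sum, Finset.smul_sum]
      refine Finset.sum_congr rfl fun j _ => ?_
      rw [map_mul, hvy j, hA, smul_mul_assoc]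
    rw [h1, ← hwv, map_zsmul, ← Int.cast_smul_eq_zsmul ℂ, smul_smul, inv_mul_cancel₀ hNC,
      one_smul]
  obtain ⟨z, hz⟩ := LDT (Σ _ : Fin r, ι) (Fin r → ECX X) b' M' (DEX_Phi X A) hle
    (by rw [hidx]; exact hI) hΦ
  have hdet := hMDX G X r A (DEX_Phi X A) (fun y i => DEX_Phi_apply X A y i)
  refine ⟨z, ?_⟩
  have h2 : ∀ ψ ∈ X, Matrix.det (fun i j => evZ ψ (a i j)) =
      (N : ℂ) ^ r * Matrix.det (fun i j => evC ψ (A i j)) := by
    intro ψ _
    have h3 := Matrix.det_smul (Matrix.of fun i j => evC ψ (A i j)) (N : ℂ)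
    rw [Fintype.card_fin] at h3
    refine Eq.trans (congrArg Matrix.det ?_) h3
    funext i j
    show evZ ψ (a i j) = (N : ℂ) * evC ψ ((N : ℂ)⁻¹ • zc (a i j))
    rw [DET_evC_smul, DET_evC, ← mul_assoc, mul_inv_cancel₀ hNC, one_mul]
  have hz' : ((L.relIndex E : ℕ) : ℂ) * LinearMap.det (DEX_Phi X A) = (z : ℂ) := by
    rw [← hidx]; exact hz
  rw [Finset.prod_congr rfl h2, Finset.prod_mul_distrib, ← hdet, ← hz']
  ring

theorem DEX (hMDX : MDX_stmt) (hEBX : EBX_stmt) : DEX_stmt := by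
  intro G _ _ X ε N₀ hN₀ hε1 hε2 U _ s M r β hsM hβ hβM hβ0 hI
  set E := AddSubgroup.pi Set.univ (fun _ : Fin r => ElX X) with hE
  set L := M.map (AddMonoidHom.pi β) with hL
  have hEmem : ∀ v, v ∈ E ↔ ∀ j, v j ∈ ElX X := by
    intro v
    rw [hE, AddSubgroup.mem_pi]
    exact ⟨fun h j => h j (Set.mem_univ j), fun h j _ => h j⟩
  have hLE : L ≤ E := by
    intro v hv
    rw [hL, AddSubgroup.mem_map] at hv
    obtain ⟨u, hu, rfl⟩ := hv
    exact (hEmem _).2 fun j => hβM j u hu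
  have heps : ε ∈ ElX X := hε2
  set I := L.relIndex E with hIdef
  set e : MonoidAlgebra ℤ G := I • ε with he
  set N : ℤ := (I : ℤ) * N₀ with hNdef
  have hN : N ≠ 0 := mul_ne_zero (Int.natCast_ne_zero.2 hI) hN₀
  have hev : ∀ ψ ∈ X, evZ ψ e = (N : ℂ) := by
    intro ψ hψ
    rw [he, map_nsmul, hε1 ψ hψ, nsmul_eq_mul, hNdef]
    push_cast
    ring
  have hex : ∀ j : Fin r, ∃ x ∈ M, ∀ i, β i x = if i = j then e else 0 := by
    intro j
    have h1 : (Pi.single j ε : Fin r → MonoidAlgebra ℤ G) ∈ E := by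
      rw [hEmem]
      intro i
      by_cases hij : i = j
      · subst hij
        rw [Pi.single_eq_same]
        exact heps
      · rw [Pi.single_eq_of_ne hij]
        exact AddSubgroup.zero_mem _
    have h2 : I • (Pi.single j ε : Fin r → MonoidAlgebra ℤ G) ∈ L :=
      AddSubgroup.nsmul_relIndex_mem L h1
    rw [hL, AddSubgroup.mem_map] at h2
    obtain ⟨x, hx, hxe⟩ := h2
    refine ⟨x, hx, fun i => ?_⟩
    have h3 : β i x = (I • (Pi.single j ε : Fin r → MonoidAlgebra ℤ G)) i :=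
      congrFun hxe i
    rw [h3, Pi.smul_apply]
    by_cases hij : i = j
    · subst hij
      rw [Pi.single_eq_same, if_pos rfl]
    · rw [Pi.single_eq_of_ne hij, if_neg hij, smul_zero]
  choose x hxM hx using hex
  refine ⟨x, e, hxM, fun i j => hx j i, ?_, ?_⟩
  · intro ψ hψ
    rw [hev ψ hψ]
    exact Int.cast_ne_zero.2 hN
  intro φ hφ
  have hinj : ∀ u ∈ M, ∀ v ∈ M, (∀ j, β j u = β j v) → u = v := by
    intro u hu v hv huv
    have h1 := hβ0 (u - v) (M.sub_mem hu hv) fun j => by rw [map_sub, huv j, sub_self]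
    exact sub_eq_zero.1 h1
  have hφE : ∀ u ∈ M, ∀ i, φ i u ∈ ElX X := by
    intro u hu i ψ hψ
    have h1 : DET_T s ε u = N₀ • u := hinj _ (DET_T_mem s M hsM ε u hu) _
      (M.zsmul_mem hu _) fun j => by
        rw [DET_T_map s (β j) (hβ j), map_zsmul, DEX_eps_mul X ε N₀ hε1 hε2 _ (hβM j u hu)]
    have h2 := congrArg (φ i) h1
    rw [DET_T_map s (φ i) (hφ i), map_zsmul] at h2
    have h3 := congrArg (evZ ψ) h2
    rw [map_mul, hε2 ψ hψ, zero_mul, map_zsmul, zsmul_eq_mul] at h3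
    exact (mul_eq_zero.1 h3.symm).resolve_left (Int.cast_ne_zero.2 hN₀)
  have hcomb : ∀ u ∈ M, DET_T s e u = ∑ j, DET_T s (β j u) (x j) := by
    intro u hu
    refine hinj _ (DET_T_mem s M hsM e u hu) _
      (AddSubgroup.sum_mem _ fun j _ => DET_T_mem s M hsM _ _ (hxM j)) fun i => ?_
    rw [DET_T_map s (β i) (hβ i), map_sum]
    have h1 : ∀ j ∈ (Finset.univ : Finset (Fin r)), β i (DET_T s (β j u) (x j)) =
        if i = j then e * β i u else 0 := by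
      intro j _
      rw [DET_T_map s (β i) (hβ i), hx j i]
      split_ifs with hij
      · subst hij
        rw [mul_comm]
      · rw [mul_zero]
    rw [Finset.sum_congr rfl h1, Finset.sum_ite_eq, if_pos (Finset.mem_univ i)]
  obtain ⟨z, hz⟩ := DEX_B hMDX hEBX G X ε N₀ hN₀ hε1 hε2 r L hLE hI (fun i j => φ i (x j)) N hN (by
    intro y hy i
    rw [hL, AddSubgroup.mem_map] at hy
    obtain ⟨u, hu, rfl⟩ := hy
    refine ⟨φ i u, hφE u hu i, ?_⟩
    have h1 := congrArg (φ i) (hcomb u hu)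
    rw [DET_T_map s (φ i) (hφ i), map_sum] at h1
    have h2 : e * φ i u = N • φ i u := by
      rw [he, smul_mul_assoc, DEX_eps_mul X ε N₀ hε1 hε2 _ (hφE u hu i), hNdef, mul_smul,
        natCast_zsmul]
    rw [← h2, h1]
    refine Finset.sum_congr rfl fun j _ => ?_
    rw [DET_T_map s (φ i) (hφ i), mul_comm]
    rfl)
  refine ⟨z, ?_⟩
  rw [hz]
  congr 1
  refine Finset.prod_congr rfl fun ψ hψ => ?_
  rw [hev ψ hψ]

end Pool.Agent.RMX
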